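import Pool.Agent.Helper14.FO.Defs

/-! DENK: fractions with numerator divisible by a given number are dense. -/

set_option autoImplicit false

namespace Pool.Agent.Helper14.FO

theorem st_DENK : ST_DENK := by
  intro m hm a b ha hab
  have ha0 : (0 : ℝ) < a := by linarith
  have hb0 : (0 : ℝ) < b := by linarith
  have hm0 : (1 : ℝ) ≤ m := by exact_mod_cast hm
  have hc : 0 < 1 / a - 1 / b := by
    have := one_div_lt_one_div_of_lt ha0 hab
    linarith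
  obtain ⟨t, ht⟩ := exists_nat_gt (1 / (1 / a - 1 / b))
  have ht1 : 1 < (t : ℝ) * (1 / a - 1 / b) := by
    rwa [div_lt_iff₀ hc] at ht
  have htpos : (0 : ℝ) < t := by
    by_contra h
    have h0 : (t : ℝ) ≤ 0 := not_lt.1 h
    have := mul_nonpos_of_nonpos_of_nonneg h0 hc.le
    linarith
  have hmt : (1 : ℝ) < (m : ℝ) * t * (1 / a - 1 / b) := by
    have h1 : (1 : ℝ) * ((t : ℝ) * (1 / a - 1 / b)) ≤ m * ((t : ℝ) * (1 / a - 1 / b)) :=
      mul_le_mul_of_nonneg_right hm0 (by linarith)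
    calc (1 : ℝ) < (t : ℝ) * (1 / a - 1 / b) := ht1
      _ ≤ m * ((t : ℝ) * (1 / a - 1 / b)) := by linarith
      _ = (m : ℝ) * t * (1 / a - 1 / b) := by ring
  have hx0 : (0 : ℝ) ≤ (m : ℝ) * t / b := by positivity
  have h1 : (m : ℝ) * t / b < (⌊(m : ℝ) * t / b⌋₊ : ℝ) + 1 := Nat.lt_floor_add_one _
  have h2 : (⌊(m : ℝ) * t / b⌋₊ : ℝ) ≤ (m : ℝ) * t / b := Nat.floor_le hx0
  have h3 : (m : ℝ) * t / b + 1 < (m : ℝ) * t / a := by
    have : (m : ℝ) * t * (1 / a - 1 / b) = (m : ℝ) * t / a - (m : ℝ) * t / b := by ring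
    linarith
  refine ⟨m * t, ⌊(m : ℝ) * t / b⌋₊ + 1, dvd_mul_right _ _, Nat.succ_pos _, ?_, ?_, ?_⟩
  · have : 0 < t := by exact_mod_cast htpos
    exact Nat.mul_pos (by omega) this
  · have hq : (0 : ℝ) < ((⌊(m : ℝ) * t / b⌋₊ + 1 : ℕ) : ℝ) := by positivity
    rw [lt_div_iff₀ hq]
    push_cast
    have h4 : (⌊(m : ℝ) * t / b⌋₊ : ℝ) + 1 < (m : ℝ) * t / a := by linarith
    rw [lt_div_iff₀ ha0] at h4
    linarith
  · have hq : (0 : ℝ) < ((⌊(m : ℝ) * t / b⌋₊ + 1 : ℕ) : ℝ) := by positivity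
    rw [div_lt_iff₀ hq]
    push_cast
    rw [div_lt_iff₀ hb0] at h1
    linarith

end Pool.Agent.Helper14.FO
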