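import Pool.Agent.Helper14.FO.Defs2

/-! MP_190084_co: module MON (upper bounds are monotone, every finite graph has some). -/

set_option autoImplicit false

namespace Pool.Agent.Helper14.FO

open Finset

theorem st_MON1 : ST_MON1 := by
  intro V W X Y hXY
  obtain ⟨φ, hφ⟩ := hXY
  constructor
  · rintro θ ⟨d, v, h1, h2⟩
    exact ⟨d, fun x => v (φ x), fun x => h1 (φ x), fun x y h => h2 _ _ (hφ x y h)⟩
  · rintro χ ⟨J, hJ, p, I, h1, h2, h3, h4⟩
    exact ⟨J, hJ, p, fun j x => I j (φ x), h1, h2, fun j x y hx hy h => h3 j _ _ hx hy (hφ x y h),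
      fun y => h4 (φ y)⟩

theorem mon_inner {V : Type} [Fintype V] [DecidableEq V] (n : ℝ) (hn : 0 < n) (hc : (Fintype.card V : ℝ) = n) (x y : V) :
    ∑ i : V, (Real.sqrt n * (if x = i then 1 else 0) - 1 / Real.sqrt n) *
      (Real.sqrt n * (if y = i then 1 else 0) - 1 / Real.sqrt n) = n * (if x = y then 1 else 0) - 1 := by
  have hs : 0 < Real.sqrt n := Real.sqrt_pos.mpr hn
  have hs2 : Real.sqrt n * Real.sqrt n = n := Real.mul_self_sqrt hn.le
  have h1 : ∀ i : V, (Real.sqrt n * (if x = i then 1 else 0) - 1 / Real.sqrt n) *
      (Real.sqrt n * (if y = i then 1 else 0) - 1 / Real.sqrt n) =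
      n * (if x = i then (if y = i then 1 else 0) else 0) - (if x = i then (1 : ℝ) else 0) -
        (if y = i then (1 : ℝ) else 0) + 1 / n := by
    intro i
    have e1 : 1 / Real.sqrt n * (1 / Real.sqrt n) = 1 / n := by
      rw [div_mul_div_comm, one_mul, hs2]
    have e2 : Real.sqrt n * (1 / Real.sqrt n) = 1 := by field_simp
    by_cases hx : x = i
    · by_cases hy : y = i
      · simp only [if_pos hx, if_pos hy]
        linear_combination hs2 - 2 * e2 + e1
      · simp only [if_pos hx, if_neg hy]
        linear_combination -e2 + e1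
    · by_cases hy : y = i
      · simp only [if_neg hx, if_pos hy]
        linear_combination -e2 + e1
      · simp only [if_neg hx, if_neg hy]
        linear_combination e1
  rw [Finset.sum_congr rfl (fun i _ => h1 i)]
  rw [Finset.sum_add_distrib, Finset.sum_sub_distrib, Finset.sum_sub_distrib, ← Finset.mul_sum]
  simp only [Finset.sum_ite_eq, Finset.mem_univ, if_true, Finset.sum_const, Finset.card_univ, nsmul_eq_mul]
  rw [hc]
  have e3 : n * (1 / n) = 1 := by field_simp
  have e4 : (if y = x then (1 : ℝ) else 0) = if x = y then 1 else 0 := by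
    by_cases h : x = y
    · rw [if_pos h, if_pos h.symm]
    · rw [if_neg h, if_neg (fun h' => h h'.symm)]
  rw [e4]
  linear_combination e3

theorem st_MON2 : ST_MON2 := by
  intro V _ _ X
  rcases isEmpty_or_nonempty V with hV | hV
  · refine ⟨1, 1, one_pos, one_pos, ⟨0, fun x => (hV.false x).elim, fun x => (hV.false x).elim,
      fun x => (hV.false x).elim⟩, Unit, inferInstance, fun _ => 1, fun _ _ => false, fun _ => zero_le_one, by simp,
      fun j x => (hV.false x).elim, fun x => (hV.false x).elim⟩
  · have hn0 : 0 < Fintype.card V := Fintype.card_pos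
    have hn : (0 : ℝ) < (Fintype.card V : ℝ) := by exact_mod_cast hn0
    refine ⟨Fintype.card V, Fintype.card V, hn, hn, ?_, ?_⟩
    · set e := Fintype.equivFin V with he
      have key : ∀ x y : V, ∑ i : Fin (Fintype.card V), (Real.sqrt (Fintype.card V) * (if x = e.symm i then 1 else 0) -
          1 / Real.sqrt (Fintype.card V)) * (Real.sqrt (Fintype.card V) * (if y = e.symm i then 1 else 0) -
          1 / Real.sqrt (Fintype.card V)) = (Fintype.card V : ℝ) * (if x = y then 1 else 0) - 1 := by
        intro x y
        rw [← mon_inner (Fintype.card V : ℝ) hn rfl x y]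
        exact Equiv.sum_comp e.symm (fun i : V => (Real.sqrt (Fintype.card V) * (if x = i then 1 else 0) -
          1 / Real.sqrt (Fintype.card V)) * (Real.sqrt (Fintype.card V) * (if y = i then 1 else 0) -
          1 / Real.sqrt (Fintype.card V)))
      refine ⟨Fintype.card V, fun x i => Real.sqrt (Fintype.card V) * (if x = e.symm i then 1 else 0) -
        1 / Real.sqrt (Fintype.card V), fun y => ?_, fun x y h => ?_⟩
      · have h1 := key y y
        rw [if_pos rfl, mul_one] at h1
        rw [← h1]
        exact Finset.sum_congr rfl fun i _ => by ring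
      · have h1 := key x y
        rw [if_neg h.ne, mul_zero, zero_sub] at h1
        exact h1
    · refine ⟨V, inferInstance, fun _ => 1 / (Fintype.card V : ℝ), fun j x => decide (x = j), fun _ => by positivity,
        ?_, ?_, ?_⟩
      · rw [Finset.sum_const, Finset.card_univ, nsmul_eq_mul]
        field_simp
      · intro j x y hx hy h
        have hx' := of_decide_eq_true hx
        have hy' := of_decide_eq_true hy
        rw [hx', hy'] at h
        exact h.ne rfl
      · intro y
        simp only [decide_eq_true_eq]
        rw [Finset.sum_ite_eq]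
        simp only [Finset.mem_univ, if_true]
        rw [mul_one_div_cancel hn.ne']

end Pool.Agent.Helper14.FO
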